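import Pool.Agent.MWGQ.StmtsC
import Pool.Agent.Helper5_MWGQ.NOR

/-!
# MWGQ, row NRF (MP_23468a_al): the exponents in the normal form of a run
-/

namespace Pool.Agent.MWGQ.H45

open Pool.Agent.MWGN (Nm WC WT Tau Ns nr sg nn)
open Pool.Agent.MWGQ.H5 (cf cf0)

theorem nrf : NrfStmt := by
  intro ν τ r hτ hnd w i j U f hU hw
  obtain ⟨hτn, hτm⟩ := hτ
  have hcnt : ∀ c, c ∈ nr ν r → w.count c =
      (List.replicate i ν.x).count c +
      (((List.range r).flatMap (fun s => ν.L s :: U s)).count c +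
        (([ν.L r] : List ℕ).count c + ((List.replicate j ν.x).count c + (([ν.b] : List ℕ).count c +
          (τ.flatMap (fun s => ν.S s :: List.replicate (f s) (ν.L s))).count c)))) := by
    intro c hc
    have h1 : (w.filter (fun c => decide (c ∈ nr ν r))).count c = w.count c :=
      List.count_filter (by simpa using hc)
    rw [← h1, hw]
    have e1 : ∀ (a : ℕ) (l : List ℕ), (a :: l).count c = ([a] : List ℕ).count c + l.count c := by
      intro a l
      rw [← List.singleton_append, List.count_append]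
    rw [List.count_append, List.count_append, e1 (ν.L r), List.count_append, e1 ν.b]
  have hnd' := hnd
  unfold nr at hnd'
  simp only [List.nodup_cons, List.nodup_append, List.mem_cons, List.mem_append, List.mem_map,
    List.mem_range, not_or, not_exists, not_and] at hnd'
  obtain ⟨⟨hxb, hxS, hxL, hxC⟩, ⟨hbS, hbL, hbC⟩, hSS, ⟨hLL, hCC, hLC⟩, hSLC⟩ := hnd'
  have hS1 : ∀ s, s ≤ r → ν.S s ≠ ν.x := fun s hs => hxS s (by omega)
  have hL1 : ∀ s, s ≤ r → ν.L s ≠ ν.x ∧ ν.b ≠ ν.L s := fun s hs =>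
    ⟨hxL s (by omega), fun h => hbL s (by omega) h.symm⟩
  have hC1 : ∀ s, s < r → ν.C s ≠ ν.x ∧ ν.b ≠ ν.C s := fun s hs =>
    ⟨hxC s hs, fun h => hbC s hs h.symm⟩
  have hSL1 : ∀ s, s ≤ r → ∀ s', s' ≤ r → ν.S s ≠ ν.L s' := fun s hs s' hs' =>
    hSLC _ ⟨s, by omega, rfl⟩ _ (Or.inl ⟨s', by omega, rfl⟩)
  have hSC1 : ∀ s, s ≤ r → ∀ s', s' < r → ν.S s ≠ ν.C s' := fun s hs s' hs' =>
    hSLC _ ⟨s, by omega, rfl⟩ _ (Or.inr ⟨s', hs', rfl⟩)
  have hLC1 : ∀ s, s ≤ r → ∀ s', s' < r → ν.L s ≠ ν.C s' := fun s hs s' hs' =>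
    hLC _ ⟨s, by omega, rfl⟩ _ ⟨s', hs', rfl⟩
  have hLi : ∀ s, s ≤ r → ∀ s', s' ≤ r → ν.L s = ν.L s' → s = s' := fun s hs s' hs' h =>
    List.inj_on_of_nodup_map hLL (List.mem_range.2 (by omega)) (List.mem_range.2 (by omega)) h
  have hCi : ∀ s, s < r → ∀ s', s' < r → ν.C s = ν.C s' → s = s' := fun s hs s' hs' h =>
    List.inj_on_of_nodup_map hCC (List.mem_range.2 hs) (List.mem_range.2 hs') h
  have hsg : ∀ a c : ℕ, a ≠ c → ([a] : List ℕ).count c = 0 := by
    intro a c h
    exact List.count_eq_zero.2 (by simpa using Ne.symm h)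
  have hrp : ∀ (k a c : ℕ), a ≠ c → (List.replicate k a).count c = 0 := by
    intro k a c h
    exact List.count_eq_zero.2 (fun hm => h (List.eq_of_mem_replicate hm).symm)
  have hcc : ∀ (a c : ℕ) (l : List ℕ), (a :: l).count c =
      ([a] : List ℕ).count c + l.count c := by
    intro a c l
    rw [← List.singleton_append, List.count_append]
  have hU0 : ∀ s < r, ∀ c, c ≠ ν.x → c ≠ ν.C s → (U s).count c = 0 := by
    intro s hs c h1 h2
    apply List.count_eq_zero.2
    intro hm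
    rcases hU s hs c hm with h | h
    · exact h1 h
    · exact h2 h
  refine ⟨?_, ?_⟩
  · intro r0 hr0
    obtain ⟨c1, c4⟩ := hC1 r0 hr0
    rw [hcnt (ν.C r0) (by
        simp only [nr, List.mem_cons, List.mem_append, List.mem_map, List.mem_range]
        exact Or.inr (Or.inr (Or.inr (Or.inr ⟨r0, hr0, rfl⟩)))),
      hsg ν.b _ c4,
      hsg (ν.L r) _ (hLC1 r le_rfl r0 hr0), hrp i ν.x _ (Ne.symm c1), hrp j ν.x _ (Ne.symm c1),
      cf _ _ (ν.C r0) r0 ((U r0).count (ν.C r0)) List.nodup_range (List.mem_range.2 hr0) (by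
        rw [hcc, hsg _ _ (hLC1 r0 (by omega) r0 hr0), Nat.zero_add])
        (fun s hs hne => by
          rw [List.mem_range] at hs
          rw [hcc, hsg _ _ (hLC1 s (by omega) r0 hr0),
            hU0 s hs _ c1 (fun h => hne (hCi s hs r0 hr0 h.symm))]),
      cf0 _ _ (ν.C r0) (fun s hs => by
        have hr' := (hτm s).1 hs
        rw [hcc, hsg _ _ (hSC1 s hr' r0 hr0), hrp _ _ _ (hLC1 s hr' r0 hr0)])]
    omega
  · intro r0 hr0
    obtain ⟨c1, c4⟩ := hL1 r0 hr0
    have hB : (τ.flatMap (fun s => ν.S s :: List.replicate (f s) (ν.L s))).count (ν.L r0) =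
        f r0 := by
      refine cf _ _ (ν.L r0) r0 (f r0) hτn ((hτm r0).2 hr0) ?_ ?_
      · rw [hcc, hsg _ _ (hSL1 r0 hr0 r0 hr0), List.count_replicate_self, Nat.zero_add]
      · intro s hs hne
        have hr' := (hτm s).1 hs
        rw [hcc, hsg _ _ (hSL1 s hr' r0 hr0), hrp _ _ _ (fun h => hne (hLi s hr' r0 hr0 h))]
    have hA : ((List.range r).flatMap
        (fun s => ν.L s :: U s)).count (ν.L r0) +
        ([ν.L r] : List ℕ).count (ν.L r0) = 1 := by
      rcases Nat.lt_or_ge r0 r with h | h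
      · rw [hsg (ν.L r) _ (fun h' => absurd (hLi r le_rfl r0 hr0 h') (by omega)),
          cf _ _ (ν.L r0) r0 1 List.nodup_range (List.mem_range.2 h) (by
            rw [hcc, List.count_singleton_self, hU0 r0 h _ c1 (hLC1 r0 hr0 r0 h)])
            (fun s hs hne => by
              rw [List.mem_range] at hs
              rw [hcc, hsg _ _ (fun h' => hne (hLi s (by omega) r0 hr0 h')),
                hU0 s hs _ c1 (hLC1 r0 hr0 s hs)])]
      · have : r0 = r := by omega
        subst this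
        rw [List.count_singleton_self, cf0 _ _ (ν.L r0) (fun s hs => by
          rw [List.mem_range] at hs
          rw [hcc, hsg _ _ (fun h' => absurd (hLi s (by omega) r0 le_rfl h') (by omega)),
            hU0 s hs _ c1 (hLC1 r0 hr0 s hs)])]
    rw [hcnt (ν.L r0) (by
        simp only [nr, List.mem_cons, List.mem_append, List.mem_map, List.mem_range]
        exact Or.inr (Or.inr (Or.inr (Or.inl ⟨r0, by omega, rfl⟩)))),
      hsg ν.b _ c4, hrp i ν.x _ (Ne.symm c1), hrp j ν.x _ (Ne.symm c1), hB]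
    omega

end Pool.Agent.MWGQ.H45
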